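import Pool.Agent.MP_d32a63_an.H13N.All
import Pool.Agent.MP_d32a63_an.H13N.One

open Set Pool.Agent.MP_d32a63_an.H82

namespace Pool.Agent.Results.MP_d32a63_an.Classify

/-- For `n ≥ 1`, triviality of `Aⁿ(S)` is local exactly when `n = 1`. -/
theorem result (n : ℕ) (hn : 1 ≤ n) :
    (∀ S S₁ S₂ : Set ℂ, IsClosed S → Admissible S S₁ S₂ → TrivialA n S₁ → TrivialA n S₂ →
      TrivialA n S) ↔ n = 1 := by
  constructor
  · intro h
    by_contra hne
    obtain ⟨S, S₁, S₂, a, b, c, d, e⟩ := Pool.Agent.MP_d32a63_an.H13N.all n (by omega)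
    exact e (h S S₁ S₂ a b c d)
  · rintro rfl
    exact Pool.Agent.MP_d32a63_an.H13N.local_one

end Pool.Agent.Results.MP_d32a63_an.Classify
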