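import Pool.Agent.MP_d32a63_an.H82.Baire

open Set Pool.Agent.MP_d32a63_an.H82

namespace Pool.Agent.Results.MP_d32a63_an.LocalSigma

/-- Triviality of `Aⁿ` is local, for all `n`, on countable unions of logarithmically thin sets. -/
theorem result (n : ℕ) (S S₁ S₂ : Set ℂ) (hS : IsClosed S) (hadm : Admissible S S₁ S₂)
    (T : ℕ → Set ℂ) (hT : ∀ k, LogThin (T k)) (hcov : S ⊆ ⋃ k, T k)
    (h₁ : TrivialA n S₁) (h₂ : TrivialA n S₂) : TrivialA n S :=
  local_sigma n S S₁ S₂ hS hadm T hT hcov h₁ h₂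

end Pool.Agent.Results.MP_d32a63_an.LocalSigma
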