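import Pool.Agent.MP_d32a63_an.H82.CoreOne
import Pool.Agent.MP_d32a63_an.H82.Split

open Set Pool.Agent.MP_d32a63_an.H82

namespace Pool.Agent.Results.MP_d32a63_an.SplitOne

/-- `A¹(S) = A¹(S₁) + A¹(S₂)` for every closed set and every admissible decomposition. -/
theorem result (S S₁ S₂ : Set ℂ) (hS : IsClosed S) (hadm : Admissible S S₁ S₂) (f : ℂ → ℂ) :
    MemA 1 S f ↔
      ∃ f₁ f₂ : ℂ → ℂ, MemA 1 S₁ f₁ ∧ MemA 1 S₂ f₂ ∧ ∀ z ∈ Sᶜ, f z = f₁ z + f₂ z := by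
  constructor
  · intro hf
    refine split_of_loc 1 S S₁ S₂ hS hadm (fun T hT _ g hg p r hr => ?_) f hf
    obtain ⟨F, hF, h0⟩ := hg.exists_jet hT
    exact loc_of_core hT hg h0 hr (core_one _ hT.isOpen_compl F hF p r hr)
  · rintro ⟨f₁, f₂, h₁, h₂, h⟩
    have e₁ : S₁ ⊆ S := by rw [hadm.2.2.1]; exact subset_union_left
    have e₂ : S₂ ⊆ S := by rw [hadm.2.2.1]; exact subset_union_right
    exact ((h₁.mono hS hadm.1 e₁).add hS (h₂.mono hS hadm.2.1 e₂)).congr hS h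

end Pool.Agent.Results.MP_d32a63_an.SplitOne
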