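import Pool.Agent.MP_d32a63_an.H82.Baire
import Pool.Agent.MP_d32a63_an.H82.Split

open Set Pool.Agent.MP_d32a63_an.H82

namespace Pool.Agent.Results.MP_d32a63_an.SplitThin

/-- `Aⁿ(S) = Aⁿ(S₁) + Aⁿ(S₂)` for all `n` when `S` is logarithmically thin. -/
theorem result (n : ℕ) (S S₁ S₂ : Set ℂ) (hS : IsClosed S) (hthin : LogThin S)
    (hadm : Admissible S S₁ S₂) (f : ℂ → ℂ) :
    MemA n S f ↔
      ∃ f₁ f₂ : ℂ → ℂ, MemA n S₁ f₁ ∧ MemA n S₂ f₂ ∧ ∀ z ∈ Sᶜ, f z = f₁ z + f₂ z := by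
  constructor
  · intro hf
    rcases S.eq_empty_or_nonempty with hE | hne
    · have e₁ : S₁ = ∅ := by
        have := hadm.2.2.1
        rw [hE] at this
        exact (union_empty_iff.mp this.symm).1
      refine ⟨f, fun _ => 0, by rw [e₁, ← hE]; exact hf,
        memA_of_entire hadm.2.1 (differentiable_const 0), fun z _ => by simp⟩
    refine split_of_loc n S S₁ S₂ hS hadm (fun T hT hTS g hg p r hr => ?_) f hf
    obtain ⟨F, hF, h0⟩ := hg.exists_jet hT
    exact loc_of_core hT hg h0 hr (core_thin n _ hT.isOpen_compl F hF p r hr S hS hne hthin.null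
      (hthin.integrableOn hne p _) (fun z hz hzT => hz.2 (hTS hzT)))
  · rintro ⟨f₁, f₂, h₁, h₂, h⟩
    have e₁ : S₁ ⊆ S := by rw [hadm.2.2.1]; exact subset_union_left
    have e₂ : S₂ ⊆ S := by rw [hadm.2.2.1]; exact subset_union_right
    exact ((h₁.mono hS hadm.1 e₁).add hS (h₂.mono hS hadm.2.1 e₂)).congr hS h

end Pool.Agent.Results.MP_d32a63_an.SplitThin
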